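import Mathlib

/-!
Families of polynomials `f_1(x, y), ..., f_m(x, y)` on the lines `x + y = n`: definitions and elementary facts.
-/

set_option autoImplicit false

namespace Pool.Agent.X32.Fam

open Finset Polynomial

/-- the one-variable polynomial `f(x, n - x)` -/
noncomputable def gp (f : MvPolynomial (Fin 2) ℤ) (n : ℕ) : ℤ[X] := MvPolynomial.aeval ![X, C (n : ℤ) - X] f

/-- the value `f(x, n - x)` -/
noncomputable def val (f : MvPolynomial (Fin 2) ℤ) (n : ℕ) (x : ℤ) : ℤ := MvPolynomial.eval ![x, n - x] f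

variable {m : ℕ}

/-- an admissible family: nonconstant polynomials such that, for all large `n`, the polynomials `f_k(x, n - x)` are
irreducible in `ℤ[x]` and no prime divides their product for every integer `x` -/
def Admissible (f : Fin m → MvPolynomial (Fin 2) ℤ) : Prop :=
  (∀ k, ∀ c : ℤ, f k ≠ MvPolynomial.C c) ∧ ∃ N₀ : ℕ, ∀ n : ℕ, N₀ ≤ n → (∀ k, Irreducible (gp (f k) n)) ∧
    ∀ p : ℕ, p.Prime → ∃ x : ℤ, ¬ (p : ℤ) ∣ ∏ k, (gp (f k) n).eval x

/-- `ω_n(p)`: the number of the residues `x` modulo `p` with `f_1(x, n - x) ... f_m(x, n - x) ≡ 0` -/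
noncomputable def omega (f : Fin m → MvPolynomial (Fin 2) ℤ) (n p : ℕ) : ℕ :=
  ((range p).filter (fun x : ℕ => (p : ℤ) ∣ ∏ k, val (f k) n x)).card

/-- the product of `1 - ω_n(p) / p` over the primes `p ≤ n` -/
noncomputable def V (f : Fin m → MvPolynomial (Fin 2) ℤ) (n : ℕ) : ℝ :=
  ∏ p ∈ (Icc 1 n).filter Nat.Prime, (1 - (omega f n p : ℝ) / p)

theorem eval_gp (f : MvPolynomial (Fin 2) ℤ) (n : ℕ) (x : ℤ) : (gp f n).eval x = val f n x := by
  unfold gp val
  induction f using MvPolynomial.induction_on with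
  | C a => simp
  | add p q hp hq => rw [map_add, eval_add, hp, hq, map_add]
  | mul_X p i hp =>
    rw [map_mul, eval_mul, hp, map_mul, MvPolynomial.aeval_X, MvPolynomial.eval_X]
    fin_cases i <;> simp

theorem natDegree_gp_le (f : MvPolynomial (Fin 2) ℤ) (n : ℕ) : (gp f n).natDegree ≤ f.totalDegree := by
  unfold gp
  have h := MvPolynomial.aeval_natDegree_le f le_rfl (![X, C (n : ℤ) - X] : Fin 2 → ℤ[X]) (n := 1) (by
    intro i
    fin_cases i
    · simp
    · show (C (n : ℤ) - X : ℤ[X]).natDegree ≤ 1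
      refine (natDegree_sub_le _ _).trans ?_
      simp)
  rwa [mul_one] at h

/-- the size of the values -/
theorem abs_val_le (f : MvPolynomial (Fin 2) ℤ) : ∃ K : ℕ, 1 ≤ K ∧ ∀ n : ℕ, 1 ≤ n → ∀ x : ℤ, 0 ≤ x → x ≤ n →
    |val f n x| ≤ K * (n : ℤ) ^ f.totalDegree := by
  refine ⟨∑ s ∈ f.support, (f.coeff s).natAbs + 1, by omega, ?_⟩
  intro n hn x hx0 hxn
  have hn1 : (1 : ℤ) ≤ n := by exact_mod_cast hn
  unfold val
  rw [MvPolynomial.eval_eq']
  have h1 : ∀ s ∈ f.support, |f.coeff s * ∏ i, (![x, (n : ℤ) - x] : Fin 2 → ℤ) i ^ s i| ≤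
      (f.coeff s).natAbs * (n : ℤ) ^ f.totalDegree := by
    intro s hs
    have h2 := MvPolynomial.le_totalDegree hs
    have h3 : (s.sum fun _ e => e) = s 0 + s 1 := by
      rw [Finsupp.sum_fintype _ _ (fun _ => rfl), Fin.sum_univ_two]
    rw [h3] at h2
    rw [abs_mul, Int.abs_eq_natAbs (f.coeff s)]
    apply mul_le_mul_of_nonneg_left _ (by positivity)
    rw [Fin.prod_univ_two, abs_mul, abs_pow, abs_pow]
    have e1 : |(![x, (n : ℤ) - x] : Fin 2 → ℤ) 0| ≤ n := by
      show |x| ≤ n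
      rw [abs_le]
      constructor <;> linarith
    have e2 : |(![x, (n : ℤ) - x] : Fin 2 → ℤ) 1| ≤ n := by
      show |(n : ℤ) - x| ≤ n
      rw [abs_le]
      constructor <;> linarith
    calc |(![x, (n : ℤ) - x] : Fin 2 → ℤ) 0| ^ s 0 * |(![x, (n : ℤ) - x] : Fin 2 → ℤ) 1| ^ s 1 ≤
        (n : ℤ) ^ s 0 * (n : ℤ) ^ s 1 := by gcongr
      _ = (n : ℤ) ^ (s 0 + s 1) := by rw [pow_add]
      _ ≤ (n : ℤ) ^ f.totalDegree := pow_le_pow_right₀ hn1 h2
  refine (abs_sum_le_sum_abs _ _).trans ((sum_le_sum h1).trans ?_)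
  rw [← sum_mul]
  apply mul_le_mul_of_nonneg_right _ (by positivity)
  push_cast
  linarith

/-- the number of the zeros modulo a prime -/
theorem card_roots_le (G : ℤ[X]) {p : ℕ} (hp : p.Prime) (h : ∃ x : ℤ, ¬ (p : ℤ) ∣ G.eval x) :
    ((range p).filter (fun x : ℕ => (p : ℤ) ∣ G.eval (x : ℤ))).card ≤ G.natDegree := by
  classical
  have : Fact p.Prime := ⟨hp⟩
  obtain ⟨x, hx⟩ := h
  obtain ⟨H, hH⟩ : ∃ H : (ZMod p)[X], H = G.map (Int.castRingHom (ZMod p)) := ⟨_, rfl⟩
  have hev : ∀ y : ℤ, H.eval (y : ZMod p) = ((G.eval y : ℤ) : ZMod p) := by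
    intro y
    rw [hH]
    exact eval_intCast_map (Int.castRingHom (ZMod p)) G y
  have hH0 : H ≠ 0 := by
    intro h0
    apply hx
    have h1 := hev x
    rw [h0, eval_zero] at h1
    exact (ZMod.intCast_zmod_eq_zero_iff_dvd _ _).1 h1.symm
  have h2 : ((range p).filter (fun x : ℕ => (p : ℤ) ∣ G.eval (x : ℤ))).card ≤ H.roots.toFinset.card := by
    apply card_le_card_of_injOn (fun x : ℕ => (x : ZMod p))
    · intro y hy
      rw [mem_coe, mem_filter] at hy
      rw [mem_coe, Multiset.mem_toFinset, mem_roots hH0, IsRoot.def]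
      have h3 := hev y
      rw [(ZMod.intCast_zmod_eq_zero_iff_dvd _ _).2 hy.2] at h3
      simpa using h3
    · intro y hy y' hy' hyy
      rw [mem_coe, mem_filter, mem_range] at hy hy'
      have h3 := (ZMod.natCast_eq_natCast_iff _ _ _).1 hyy
      exact Nat.ModEq.eq_of_lt_of_lt h3 hy.1 hy'.1
  refine h2.trans ((Multiset.toFinset_card_le _).trans ((card_roots' H).trans ?_))
  rw [hH]
  exact natDegree_map_le

/-- the number of the arguments with a given value -/
theorem card_val_le (G : ℤ[X]) (hG : 1 ≤ G.natDegree) (v : ℤ) (A B : ℕ) :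
    ((Ioc A B).filter (fun x : ℕ => G.eval (x : ℤ) = v)).card ≤ G.natDegree := by
  classical
  have h0 : G - C v ≠ 0 := by
    intro h
    have h1 : G = C v := sub_eq_zero.1 h
    rw [h1, natDegree_C] at hG
    omega
  have h2 : ((Ioc A B).filter (fun x : ℕ => G.eval (x : ℤ) = v)).card ≤ (G - C v).roots.toFinset.card := by
    apply card_le_card_of_injOn (fun x : ℕ => (x : ℤ))
    · intro y hy
      rw [mem_coe, mem_filter] at hy
      rw [mem_coe, Multiset.mem_toFinset, mem_roots h0, IsRoot.def, eval_sub, eval_C, hy.2, sub_self]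
    · intro y _ y' _ hyy
      exact Nat.cast_injective hyy
  refine h2.trans ((Multiset.toFinset_card_le _).trans ((card_roots' _).trans ?_))
  exact (natDegree_sub_le _ _).trans (by simp)

/-- the polynomials of the family are not constant on the lines -/
theorem one_le_natDegree {f : Fin m → MvPolynomial (Fin 2) ℤ} {n : ℕ} (h1 : ∀ k, Irreducible (gp (f k) n))
    (h2 : ∀ p : ℕ, p.Prime → ∃ x : ℤ, ¬ (p : ℤ) ∣ ∏ k, (gp (f k) n).eval x) (k : Fin m) :
    1 ≤ (gp (f k) n).natDegree := by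
  by_contra hcon
  have h3 : (gp (f k) n).natDegree = 0 := by omega
  obtain ⟨v, hv⟩ : ∃ v : ℤ, gp (f k) n = C v := ⟨_, eq_C_of_natDegree_eq_zero h3⟩
  rcases eq_or_ne v.natAbs 1 with hv1 | hv1
  · apply (h1 k).not_isUnit
    rw [hv]
    exact (Int.isUnit_iff_natAbs_eq.2 hv1).map C
  · obtain ⟨p, hp, hpd⟩ := Nat.exists_prime_and_dvd hv1
    obtain ⟨x, hx⟩ := h2 p hp
    apply hx
    refine Dvd.dvd.trans ?_ (dvd_prod_of_mem _ (mem_univ k))
    rw [hv, eval_C]
    exact Int.natCast_dvd.2 hpd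

theorem val_linear (a b c : ℤ) (n : ℕ) (x : ℤ) :
    val (MvPolynomial.C a * MvPolynomial.X 0 + MvPolynomial.C b * MvPolynomial.X 1 + MvPolynomial.C c) n x =
      (a - b) * x + (b * n + c) := by
  unfold val
  simp
  ring

theorem dvd_val_iff {f : Fin m → MvPolynomial (Fin 2) ℤ} {n : ℕ} {p : ℕ} {x y : ℤ} (h : x ≡ y [ZMOD p]) :
    (p : ℤ) ∣ ∏ k, val (f k) n x ↔ (p : ℤ) ∣ ∏ k, val (f k) n y := by
  have h1 : ∏ k, val (f k) n x ≡ ∏ k, val (f k) n y [ZMOD p] := by
    apply Int.ModEq.prod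
    intro k _
    rw [← eval_gp, ← eval_gp]
    exact (Int.modEq_iff_dvd.2 (by
      have := sub_dvd_eval_sub y x (gp (f k) n)
      exact ((Int.modEq_iff_dvd.1 h)).trans this))
  exact h1.dvd_iff

end Pool.Agent.X32.Fam
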