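import Pool.Agent.X32.Fam.Red3

/-!
Families with two linear members: one is a prime, one is a product of two primes, the others are almost primes, for
every large `n` and in every long interval.
-/

set_option autoImplicit false

namespace Pool.Agent.X32.Fam

open Finset Filter
open Polynomial (X C)
open Pool.Agent.Y843.HS (Pr VV Pr_mem Pr_prime VV_split card_res)
open Pool.Agent.Y843.HG (Adm Z0 V1)
open Pool.Agent.Y843.CH
open Pool.Agent.X32.CL

variable {m : ℕ}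

/-- the polynomial `a x + b y + c` -/
noncomputable def lin (a b c : ℤ) : MvPolynomial (Fin 2) ℤ :=
  MvPolynomial.C a * MvPolynomial.X 0 + MvPolynomial.C b * MvPolynomial.X 1 + MvPolynomial.C c

theorem val_lin (a b c : ℤ) (n : ℕ) (x : ℤ) : val (lin a b c) n x = (a - b) * x + (b * n + c) :=
  val_linear a b c n x

theorem gp_lin (a b c : ℤ) (n : ℕ) : gp (lin a b c) n = Polynomial.C (a - b) * X + Polynomial.C (b * n + c) := by
  unfold gp lin
  simp
  ring

theorem lin_neg (a b c : ℤ) : lin (-a) (-b) (-c) = - lin a b c := by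
  unfold lin
  simp
  ring

theorem lin_abs (a b c : ℤ) (n : ℕ) (hn : 1 ≤ n) (x : ℤ) (h0 : 0 ≤ x) (h1 : x ≤ n) :
    |(a - b) * x + (b * n + c)| ≤ ((a.natAbs + b.natAbs + c.natAbs : ℕ) : ℤ) * n := by
  have hn1 : (1 : ℤ) ≤ n := by exact_mod_cast hn
  have e : (a - b) * x + (b * n + c) = a * x + b * (n - x) + c := by ring
  rw [e]
  push_cast
  have h2 : |a * x| ≤ |a| * n := by
    rw [abs_mul, abs_of_nonneg h0]
    exact mul_le_mul_of_nonneg_left h1 (abs_nonneg _)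
  have h3 : |b * ((n : ℤ) - x)| ≤ |b| * n := by
    rw [abs_mul, abs_of_nonneg (by linarith : (0 : ℤ) ≤ n - x)]
    exact mul_le_mul_of_nonneg_left (by linarith) (abs_nonneg _)
  have h4 : |c| ≤ |c| * n := by
    have := mul_le_mul_of_nonneg_left hn1 (abs_nonneg c)
    linarith
  calc |a * x + b * (n - x) + c| ≤ |a * x + b * (n - x)| + |c| := abs_add_le _ _
    _ ≤ |a * x| + |b * (n - x)| + |c| := by
        have := abs_add_le (a * x) (b * ((n : ℤ) - x))
        linarith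
    _ ≤ (|a| + |b| + |c|) * n := by linarith

theorem e_ne {a b c : ℤ} {n : ℕ} (h : 1 ≤ (gp (lin a b c) n).natDegree) : a - b ≠ 0 := by
  intro h0
  rw [gp_lin, h0, map_zero, zero_mul, zero_add, Polynomial.natDegree_C] at h
  omega

theorem cop_lin {a b c : ℤ} {n : ℕ} (h : Irreducible (gp (lin a b c) n))
    (h1 : 1 ≤ (gp (lin a b c) n).natDegree) : IsCoprime (a - b) (b * n + c) := by
  have h2 := h.isPrimitive (by omega)
  rw [Int.isCoprime_iff_gcd_eq_one]
  have h3 : Polynomial.C (((a - b).gcd (b * n + c) : ℕ) : ℤ) ∣ gp (lin a b c) n := by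
    rw [gp_lin]
    apply dvd_add
    · apply Dvd.dvd.mul_right
      rw [Polynomial.C_dvd_iff_dvd_coeff]
      intro k
      rw [Polynomial.coeff_C]
      split_ifs
      · exact Int.gcd_dvd_left _ _
      · exact dvd_zero _
    · rw [Polynomial.C_dvd_iff_dvd_coeff]
      intro k
      rw [Polynomial.coeff_C]
      split_ifs
      · exact Int.gcd_dvd_right _ _
      · exact dvd_zero _
  have h4 := h2 _ h3
  rw [Int.isUnit_iff_natAbs_eq] at h4
  simpa using h4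

/-- the two linear polynomials are not proportional -/
theorem nonzero_H {a b c a' b' c' : ℤ} {N₀ : ℕ} (hi : Irreducible (gp (lin a b c) N₀))
    (hj : Irreducible (gp (lin a' b' c') N₀)) (hdi : 1 ≤ (gp (lin a b c) N₀).natDegree)
    (hdj : 1 ≤ (gp (lin a' b' c') N₀).natDegree) (h1 : lin a' b' c' ≠ lin a b c)
    (h2 : lin a' b' c' ≠ - lin a b c) :
    ∃ n₁ : ℕ, ∀ n : ℕ, n₁ ≤ n → (a - b) * (b' * n + c') - (a' - b') * (b * n + c) ≠ 0 := by
  have he0 := e_ne hdi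
  have he1 := e_ne hdj
  obtain ⟨s, hs⟩ : ∃ s : ℤ, s = (a - b) * b' - (a' - b') * b := ⟨_, rfl⟩
  obtain ⟨r, hr⟩ : ∃ r : ℤ, r = (a - b) * c' - (a' - b') * c := ⟨_, rfl⟩
  have hid : ∀ n : ℕ, (a - b) * (b' * n + c') - (a' - b') * (b * n + c) = s * n + r := by
    intro n
    rw [hs, hr]
    ring
  by_cases hs0 : s = 0
  · by_cases hr0 : r = 0
    · exfalso
      have hc0 := cop_lin hi hdi
      have hc1 := cop_lin hj hdj
      have h3 : (a - b) * (b' * N₀ + c') = (a' - b') * (b * N₀ + c) := by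
        have := hid N₀
        rw [hs0, hr0] at this
        linarith
      have h4 : (a - b) ∣ (a' - b') := hc0.dvd_of_dvd_mul_right (Dvd.intro _ h3)
      have h5 : (a' - b') ∣ (a - b) := hc1.dvd_of_dvd_mul_right (Dvd.intro _ h3.symm)
      have h6 := Int.natAbs_eq_natAbs_iff.1 (Nat.dvd_antisymm (Int.natAbs_dvd_natAbs.2 h4) (Int.natAbs_dvd_natAbs.2 h5))
      rw [hs0] at hs
      rw [hr0] at hr
      rcases h6 with h6 | h6
      · rw [← h6] at hs hr
        have hb : b' = b := by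
          apply mul_left_cancel₀ he0
          linarith
        have hc : c' = c := by
          apply mul_left_cancel₀ he0
          linarith
        have ha : a' = a := by linarith
        exact h1 (by rw [ha, hb, hc])
      · have h7 : a' - b' = - (a - b) := by linarith
        rw [h7] at hs hr
        have hb : b' = -b := by
          apply mul_left_cancel₀ he0
          linarith
        have hc : c' = -c := by
          apply mul_left_cancel₀ he0
          linarith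
        have ha : a' = -a := by linarith
        exact h2 (by rw [ha, hb, hc, lin_neg])
    · refine ⟨0, fun n _ => ?_⟩
      rw [hid, hs0, zero_mul, zero_add]
      exact hr0
  · refine ⟨r.natAbs + 1, fun n hn h => ?_⟩
    rw [hid] at h
    have h3 : s * n = -r := by linarith
    have h4 : s.natAbs * n = r.natAbs := by
      have := congrArg Int.natAbs h3
      rwa [Int.natAbs_mul, Int.natAbs_natCast, Int.natAbs_neg] at this
    have h5 : 1 ≤ s.natAbs := Int.natAbs_pos.2 hs0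
    have : 1 * n ≤ s.natAbs * n := Nat.mul_le_mul_right _ h5
    omega

/-- the growth of the logarithm -/
theorem log_small (D : ℕ) (M : ℝ) : ∀ᶠ n : ℕ in atTop, M * Real.log n ^ D ≤ n := by
  have h1 := (Real.isLittleO_pow_log_id_atTop (n := D)).comp_tendsto tendsto_natCast_atTop_atTop
  have h2 := h1.bound (show (0 : ℝ) < 1 / (|M| + 1) by positivity)
  filter_upwards [h2] with n hn
  simp only [Function.comp, id, Real.norm_eq_abs, Nat.abs_cast] at hn
  have h3 : M * Real.log n ^ D ≤ (|M| + 1) * |Real.log n ^ D| := by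
    refine (le_abs_self _).trans ?_
    rw [abs_mul]
    apply mul_le_mul_of_nonneg_right _ (abs_nonneg _)
    linarith
  refine h3.trans ?_
  calc (|M| + 1) * |Real.log n ^ D| ≤ (|M| + 1) * (1 / (|M| + 1) * n) := by gcongr
    _ = n := by field_simp

theorem pow_ge (t : ℕ) (ht : 1 ≤ t) (K : ℝ) : ∀ᶠ n : ℕ in atTop, K < (n : ℝ) ^ (1 / (t : ℝ)) := by
  have ht0 : (0 : ℝ) < t := by exact_mod_cast ht
  exact ((tendsto_rpow_atTop (show (0 : ℝ) < 1 / t by positivity)).comp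
      tendsto_natCast_atTop_atTop).eventually (eventually_gt_atTop K)

theorem main (f : Fin m → MvPolynomial (Fin 2) ℤ) (hf : Admissible f) (i j : Fin m)
    (a b c a' b' c' : ℤ) (hi : f i = lin a b c) (hj : f j = lin a' b' c') (hne : f j ≠ f i) (hne' : f j ≠ - f i) :
    ∃ t : ℕ, 1 ≤ t ∧ ∃ κ : ℝ, 0 < κ ∧ ∀ θ : ℝ, 0 < θ → ∃ n₀ : ℕ, ∀ n : ℕ, n₀ ≤ n →
      κ / Real.log n ^ (∑ k, (f k).totalDegree) ≤ V f n ∧
      ∀ A B : ℕ, B < n → θ * n ≤ (B : ℝ) - A →
        κ * ((B : ℝ) - A) * V f n ≤ ((GoodX f i j t n A B).card : ℝ) := by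
  classical
  obtain ⟨_, N₀, hadm⟩ := hf
  have hdeg : ∀ n, N₀ ≤ n → ∀ k, 1 ≤ (gp (f k) n).natDegree := fun n hn =>
    one_le_natDegree (hadm n hn).1 (hadm n hn).2
  have hloc : ∀ n, N₀ ≤ n → ∀ p : ℕ, p.Prime → ∃ x : ℤ, ¬ (p : ℤ) ∣ ∏ k, val (f k) n x := by
    intro n hn p hp
    obtain ⟨x, hx⟩ := (hadm n hn).2 p hp
    refine ⟨x, ?_⟩
    simp only [eval_gp] at hx
    exact hx
  have hdi := hdeg N₀ le_rfl i
  have hdj := hdeg N₀ le_rfl j
  have hii := (hadm N₀ le_rfl).1 i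
  have hij := (hadm N₀ le_rfl).1 j
  rw [hi] at hdi hii hne hne'
  rw [hj] at hdj hij hne hne'
  have he0 := e_ne hdi
  have he1 := e_ne hdj
  obtain ⟨n₁, hn₁⟩ := nonzero_H hii hij hdi hdj hne hne'
  obtain ⟨e0, he0d⟩ : ∃ e0 : ℤ, e0 = a - b := ⟨_, rfl⟩
  obtain ⟨e1, he1d⟩ : ∃ e1 : ℤ, e1 = a' - b' := ⟨_, rfl⟩
  rw [← he0d] at he0
  rw [← he1d] at he1
  obtain ⟨D, hD⟩ : ∃ D : ℕ, D = ∑ k, (f k).totalDegree := ⟨_, rfl⟩
  have hD1 : 1 ≤ D := by
    have h1 := natDegree_gp_le (f i) N₀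
    have h2 := hdeg N₀ le_rfl i
    have h3 : (f i).totalDegree ≤ D := by
      rw [hD]
      exact single_le_sum (f := fun k => (f k).totalDegree) (fun _ _ => Nat.zero_le _) (mem_univ i)
    omega
  obtain ⟨d0, hd0⟩ : ∃ d0 : ℕ, D = d0 + 1 := ⟨D - 1, by omega⟩
  obtain ⟨z, hz1, hz2, t, ht, HC⟩ := chenL D (e0.natAbs + e1.natAbs)
  obtain ⟨u, hu⟩ : ∃ u : ℕ, u = e0.natAbs := ⟨_, rfl⟩
  have hu0 : 0 < u := by rw [hu]; exact Int.natAbs_pos.2 he0
  have huz : u ≤ z := by omega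
  have he1z : e1.natAbs ≤ z := by omega
  obtain ⟨c1, hc1, HC1⟩ := HC u e1 hu0 he1 huz he1z
  obtain ⟨c2, hc2, HC2⟩ := HC u (-e1) hu0 (neg_ne_zero.2 he1) huz (by rw [Int.natAbs_neg]; exact he1z)
  obtain ⟨cV, hcV, HV⟩ := V_low d0
  choose K hK1 hK using fun k => abs_val_le (f k)
  obtain ⟨KK, hKK⟩ : ∃ KK : ℕ, KK = ∑ k, K k := ⟨_, rfl⟩
  have hKle : ∀ k, K k ≤ KK := fun k => by
    rw [hKK]
    exact single_le_sum (f := K) (fun _ _ => Nat.zero_le _) (mem_univ k)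
  obtain ⟨S0, hS0⟩ : ∃ S0 : ℕ, S0 = a.natAbs + b.natAbs + c.natAbs := ⟨_, rfl⟩
  obtain ⟨S1, hS1⟩ : ∃ S1 : ℕ, S1 = a'.natAbs + b'.natAbs + c'.natAbs := ⟨_, rfl⟩
  obtain ⟨C1, hC1⟩ : ∃ C1 : ℕ, C1 = S0 + S1 + 2 * u + 2 * e1.natAbs + 1 := ⟨_, rfl⟩
  have hC1p : 1 ≤ C1 := by omega
  have hC1r : (0 : ℝ) < C1 := by exact_mod_cast hC1p
  have hVz := V1_pos z
  obtain ⟨cc, hcc⟩ : ∃ cc : ℝ, cc = min c1 c2 := ⟨_, rfl⟩
  have hcc0 : 0 < cc := by rw [hcc]; exact lt_min hc1 hc2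
  refine ⟨t, by omega, min (cc * V1 z / 8) cV, by positivity, fun θ hθ => ?_⟩
  obtain ⟨X₁, hX₁⟩ := HC1 (θ / (4 * C1)) (by positivity)
  obtain ⟨X₂, hX₂⟩ := HC2 (θ / (4 * C1)) (by positivity)
  obtain ⟨n₂, hn₂⟩ := eventually_atTop.1 Pool.Agent.Y840.CT.ninth
  obtain ⟨n₃, hn₃⟩ := eventually_atTop.1 (pow_ge t (by omega) (max KK z))
  obtain ⟨n₄, hn₄⟩ := eventually_atTop.1 (log_small D (3 * D / (cc * V1 z / 8 * θ * cV)))
  obtain ⟨n₅, hn₅⟩ := exists_nat_gt (12 / θ)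
  refine ⟨N₀ + n₁ + 3 + X₁ + X₂ + n₂ + n₃ + n₄ + n₅ + C1, ?_⟩
  intro n hn
  have hnN : N₀ ≤ n := by omega
  have hn3 : 3 ≤ n := by omega
  have hnC : C1 ≤ n := by omega
  have hn1 : 1 ≤ n := by omega
  have hn0 : (0 : ℝ) < n := by exact_mod_cast hn1
  have hVl := HV m f n (by omega) (hloc n hnN) (by
    refine (Polynomial.natDegree_prod_le _ _).trans ?_
    rw [← hd0, hD]
    exact sum_le_sum fun k _ => natDegree_gp_le _ _)
  rw [← hd0] at hVl
  have hlog : 0 < Real.log n := Real.log_pos (by exact_mod_cast (by omega : 1 < n))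
  have hVn := V_nonneg (hloc n hnN)
  refine ⟨?_, ?_⟩
  · rw [← hD]
    refine le_trans ?_ hVl
    apply div_le_div_of_nonneg_right (min_le_right _ _) (by positivity)
  intro A B hBn hθn
  have hθ12 : 12 ≤ θ * n := by
    have h1 : 12 / θ ≤ n := by
      have : (n₅ : ℝ) ≤ n := by exact_mod_cast (by omega : n₅ ≤ n)
      linarith
    rwa [div_le_iff₀ hθ, mul_comm] at h1
  have hAB12 : A + 12 ≤ B := by
    have h1 : (A : ℝ) + 12 ≤ B := by linarith
    exact_mod_cast h1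
  obtain ⟨β0, hβ0⟩ : ∃ β0 : ℤ, β0 = b * n + c := ⟨_, rfl⟩
  obtain ⟨β1, hβ1⟩ : ∃ β1 : ℤ, β1 = b' * n + c' := ⟨_, rfl⟩
  obtain ⟨A1, B1, σ, hA1, hAB1, hB1, hlen, hσ, hpos⟩ := window e0 β0 he0 A B (by omega)
  obtain ⟨τ, hτd⟩ : ∃ τ : ℤ, τ = (σ * e0).sign := ⟨_, rfl⟩
  have hE0 : σ * e0 ≠ 0 := by
    apply mul_ne_zero _ he0
    rcases hσ with h | h <;> rw [h] <;> norm_num
  have hτ : τ = 1 ∨ τ = -1 := by
    rw [hτd]
    rcases lt_or_gt_of_ne hE0 with h | h
    · right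
      exact Int.sign_eq_neg_one_of_neg h
    · left
      exact Int.sign_eq_one_of_pos h
  have huE : (u : ℤ) = τ * (σ * e0) := by
    rw [hτd, Int.sign_mul_self, hu, Int.natAbs_mul]
    rcases hσ with h | h <;> rw [h] <;> simp
  have Dd : Da f i j n z D u σ τ e0 e1 β0 β1 :=
    { hi := fun x => by rw [hi, val_lin, ← he0d, ← hβ0]
      hj := fun x => by rw [hj, val_lin, ← he1d, ← hβ1]
      loc := hloc n hnN
      deg := by
        refine (Polynomial.natDegree_prod_le _ _).trans ?_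
        rw [hD]
        exact sum_le_sum fun k _ => natDegree_gp_le _ _
      dz := hz2
      hσ := hσ
      hτ := hτ
      hu := huE
      u0 := hu0
      uz := huz
      e10 := he1
      H0 := by
        rw [he0d, he1d, hβ0, hβ1]
        exact hn₁ n (by omega) }
  obtain ⟨x0, hx0⟩ := exists_x0 f n z (hloc n hnN)
  have hwq : ∀ q : ℕ, q.Prime → z < q → ¬ (q : ℤ) ∣ τ * e1 := by
    intro q hq hzq hd
    have h1 : (q : ℤ) ∣ e1 := by
      rcases hτ with h | h
      · rwa [h, one_mul] at hd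
      · rwa [h, neg_one_mul, Int.dvd_neg] at hd
    have h2 : q ∣ e1.natAbs := Int.natCast_dvd.1 h1
    have h3 := Nat.le_of_dvd (Int.natAbs_pos.2 he1) h2
    omega
  have hA1B1 : A1 < B1 := by omega
  obtain ⟨P, Q, hPQ, hPQl, hrange, ⟨y1, hy1, hyP⟩, ⟨y2, hy2, hyQ⟩⟩ :=
    range_p (E := σ * e0) (F := σ * β0) huE hτ hu0 hA1B1 (by
      intro x h1 h2
      have h3 := hpos x h1 h2
      have h4 : σ * e0 * x + σ * β0 = σ * (e0 * x + β0) := by ring
      rw [h4]
      exact h3)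
  obtain ⟨w, hw⟩ : ∃ w : ℤ, w = τ * e1 := ⟨_, rfl⟩
  obtain ⟨H, hH⟩ : ∃ H : ℤ, H = τ * (σ * e0 * β1 - e1 * (σ * β0)) := ⟨_, rfl⟩
  obtain ⟨Y, hY⟩ : ∃ Y : ℕ, Y = ⌊((C1 * n : ℕ) : ℝ) ^ (1 / (t : ℝ))⌋₊ := ⟨_, rfl⟩
  have hnr : (1 : ℤ) ≤ n := by exact_mod_cast hn1
  have huz0 : (1 : ℤ) ≤ u := by exact_mod_cast hu0
  -- the sizes
  have hsize : ∀ y T : ℕ, y ≤ B1 → |(T : ℤ) - (σ * e0 * y + σ * β0)| ≤ u + 1 →
      |w * T + H| ≤ u * ((C1 * n : ℕ) : ℤ) ∧ T ≤ C1 * n := by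
    intro y T hy hT
    have hyn : (y : ℤ) ≤ n := by exact_mod_cast (hy.trans hB1).trans hBn.le
    have hy0 : (0 : ℤ) ≤ y := by positivity
    have l0 := lin_abs a b c n hn1 y hy0 hyn
    have l1 := lin_abs a' b' c' n hn1 y hy0 hyn
    rw [← he0d, ← hβ0, ← hS0] at l0
    rw [← he1d, ← hβ1, ← hS1] at l1
    constructor
    · have h1 : w * T + H = u * (e1 * y + β1) + w * ((T : ℤ) - (σ * e0 * y + σ * β0)) := by
        rw [← Dd.idn y, hw, hH]
        ring
      rw [h1]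
      have h2 : |(u : ℤ) * (e1 * y + β1)| ≤ u * (S1 * n) := by
        rw [abs_mul, Nat.abs_cast]
        exact mul_le_mul_of_nonneg_left l1 (by positivity)
      have h3 : |w * ((T : ℤ) - (σ * e0 * y + σ * β0))| ≤ e1.natAbs * (u + 1) := by
        rw [abs_mul]
        have h4 : |w| = e1.natAbs := by
          rw [hw, abs_mul, Int.abs_eq_natAbs e1]
          rcases hτ with h | h <;> rw [h] <;> simp
        rw [h4]
        exact mul_le_mul_of_nonneg_left hT (by positivity)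
      refine (abs_add_le _ _).trans ((add_le_add h2 h3).trans ?_)
      rw [hC1]
      push_cast
      have h5 : (0 : ℤ) ≤ |e1| := abs_nonneg _
      have h6 : |e1| * ((u : ℤ) + 1) ≤ |e1| * (2 * u * n) := by
        apply mul_le_mul_of_nonneg_left _ h5
        nlinarith
      have h7 : 0 ≤ (u : ℤ) * ((S0 + 2 * u + 1) * n) := by positivity
      nlinarith
    · have h1 : (T : ℤ) ≤ |σ * e0 * y + σ * β0| + (u + 1) := by
        have := (abs_le.1 hT).2
        have := le_abs_self (σ * e0 * y + σ * β0)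
        linarith
      have h2 : |σ * e0 * y + σ * β0| = |e0 * y + β0| := by
        have h3 : σ * e0 * y + σ * β0 = σ * (e0 * y + β0) := by ring
        rw [h3, abs_mul]
        rcases hσ with h | h <;> rw [h] <;> simp
      rw [h2] at h1
      have h3 : (T : ℤ) ≤ ((C1 * n : ℕ) : ℤ) := by
        rw [hC1]
        push_cast
        have h4 : (u : ℤ) + 1 ≤ 2 * u * n := by nlinarith
        have h5 : 0 ≤ ((S1 : ℤ) + 2 * |e1| + 1) * n := by positivity
        nlinarith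
      exact_mod_cast h3
  obtain ⟨tA, _⟩ := hsize y1 P hy1 hyP
  obtain ⟨tB, hQX⟩ := hsize y2 Q hy2 hyQ
  obtain ⟨hcop, hua, haq⟩ := Dd.cop hx0
  have hCL : CLd D z Y (C1 * n) u w H (aP z u (σ * e0) (σ * β0) x0) P Q (OmE f n z (σ * e0) (σ * β0)) :=
    { BX := hQX
      tA := tA
      tB := tB
      H0 := by rw [hH]; exact Dd.Hne
      adm := Dd.adm Y
      hm := by rw [hw, hH]; exact Dd.hm hwq
      cop := hcop
      ua := by rw [hw, hH]; exact hua
      aq := by rw [hw, hH]; exact haq }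
  -- the length
  have hQP : ((B : ℝ) - A) / 4 ≤ (Q : ℝ) - P := by
    have h1 : (u : ℝ) * ((B1 : ℝ) - A1) ≤ (Q : ℝ) - P + u := by exact_mod_cast hPQl
    have h2 : (1 : ℝ) ≤ u := by exact_mod_cast hu0
    have h3 : (1 : ℝ) ≤ (B1 : ℝ) - A1 := by
      have : (A1 : ℝ) + 1 ≤ B1 := by exact_mod_cast hA1B1
      linarith
    have h4 : (B : ℝ) + 2 * A1 ≤ A + 2 * B1 + 1 := by exact_mod_cast hlen
    have h5 : (A : ℝ) + 12 ≤ B := by exact_mod_cast hAB12
    have h6 : (1 : ℝ) * ((B1 : ℝ) - A1 - 1) ≤ u * ((B1 : ℝ) - A1 - 1) :=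
      mul_le_mul_of_nonneg_right h2 (by linarith)
    linarith
  have hθX : θ / (4 * C1) * ((C1 * n : ℕ) : ℝ) ≤ (Q : ℝ) - P := by
    have h1 : θ / (4 * C1) * ((C1 * n : ℕ) : ℝ) = θ * n / 4 := by
      push_cast
      field_simp
    rw [h1]
    linarith
  have hXn : n ≤ C1 * n := Nat.le_mul_of_pos_left n hC1p
  have hchen : cc * ((Q : ℝ) - P) * VV (Z0 (OmE f n z (σ * e0) (σ * β0))) 0 Y ≤
      ((GD2 (max P (Nat.sqrt (C1 * n))) Q (Nat.sqrt (C1 * n)) z Y (u * Mz z) (aP z u (σ * e0) (σ * β0) x0) u w H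
        (OmE f n z (σ * e0) (σ * β0))).card : ℝ) := by
    have hVV0 : 0 ≤ VV (Z0 (OmE f n z (σ * e0) (σ * β0))) 0 Y := VV_nonneg (Dd.adm Y)
    have hQP0 : 0 ≤ (Q : ℝ) - P := by
      have : (P : ℝ) ≤ Q := by exact_mod_cast hPQ
      linarith
    rcases hτ with h | h
    · rw [h, one_mul] at hw
      rw [hw] at hCL ⊢
      rw [hY] at hCL ⊢
      refine le_trans ?_ (hX₁ (C1 * n) (by omega) H _ P Q _ hCL hθX)
      rw [← hY]
      gcongr
      rw [hcc]
      exact min_le_left _ _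
    · rw [h, neg_one_mul] at hw
      rw [hw] at hCL ⊢
      rw [hY] at hCL ⊢
      refine le_trans ?_ (hX₂ (C1 * n) (by omega) H _ P Q _ hCL hθX)
      rw [← hY]
      gcongr
      rw [hcc]
      exact min_le_right _ _
  -- the parameters
  have ht0 : (0 : ℝ) < t := by exact_mod_cast (by omega : 0 < t)
  have hnX : (n : ℝ) ≤ ((C1 * n : ℕ) : ℝ) := by exact_mod_cast hXn
  have hroot : (n : ℝ) ^ (1 / (t : ℝ)) ≤ ((C1 * n : ℕ) : ℝ) ^ (1 / (t : ℝ)) :=
    Real.rpow_le_rpow hn0.le hnX (by positivity)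
  have hKz := hn₃ n (by omega)
  have hKK' : (KK : ℝ) < (n : ℝ) ^ (1 / (t : ℝ)) := lt_of_le_of_lt (le_max_left _ _) hKz
  have hzz' : (z : ℝ) < (n : ℝ) ^ (1 / (t : ℝ)) := lt_of_le_of_lt (le_max_right _ _) hKz
  have hzY : z ≤ Y := by
    rw [hY]
    exact Nat.le_floor (hzz'.le.trans hroot)
  have hYlt : (n : ℝ) ^ (1 / (t : ℝ)) < Y + 1 := by
    rw [hY]
    exact lt_of_le_of_lt hroot (Nat.lt_floor_add_one _)
  have hYn : Y ≤ n := by
    have h1 : ((C1 * n : ℕ) : ℝ) ≤ (n : ℝ) ^ (2 : ℝ) := by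
      have : C1 * n ≤ n ^ 2 := by
        rw [pow_two]
        exact Nat.mul_le_mul_right _ hnC
      rw [Real.rpow_two]
      exact_mod_cast this
    have h2 : ((C1 * n : ℕ) : ℝ) ^ (1 / (t : ℝ)) ≤ n := by
      calc ((C1 * n : ℕ) : ℝ) ^ (1 / (t : ℝ)) ≤ ((n : ℝ) ^ (2 : ℝ)) ^ (1 / (t : ℝ)) :=
            Real.rpow_le_rpow (by positivity) h1 (by positivity)
        _ = (n : ℝ) ^ (2 * (1 / (t : ℝ))) := by rw [Real.rpow_mul hn0.le]
        _ ≤ (n : ℝ) ^ (1 : ℝ) := by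
            apply Real.rpow_le_rpow_of_exponent_le (by exact_mod_cast hn1)
            rw [mul_one_div, div_le_one ht0]
            exact_mod_cast (by omega : 2 ≤ t)
        _ = n := Real.rpow_one _
    have h3 : (Y : ℝ) ≤ n := by
      rw [hY]
      exact (Nat.floor_le (by positivity)).trans h2
    exact_mod_cast h3
  have hNn : (n : ℝ) ^ (1 / 9 : ℝ) < (Nat.sqrt (C1 * n) : ℝ) ^ (1 / 4 : ℝ) := by
    refine lt_of_le_of_lt ?_ (hn₂ (C1 * n) (by omega))
    exact Real.rpow_le_rpow hn0.le hnX (by norm_num)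
  have hKv : ∀ k, ∀ x : ℤ, 0 ≤ x → x ≤ n → |val (f k) n x| ≤ KK * (n : ℤ) ^ (f k).totalDegree := by
    intro k x h0 h1
    refine (hK k n hn1 x h0 h1).trans ?_
    apply mul_le_mul_of_nonneg_right _ (by positivity)
    exact_mod_cast hKle k
  have hcount := Dd.count (P' := max P (Nat.sqrt (C1 * n))) hBn.le hn1 (by omega : 1 ≤ t) hA1 hB1
    (hdeg n hnN) hx0 hYlt hNn hKK' hKv (le_max_left _ _) hrange
  rw [← hw, ← hH, ← hD] at hcount
  have hcount' : ((GD2 (max P (Nat.sqrt (C1 * n))) Q (Nat.sqrt (C1 * n)) z Y (u * Mz z)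
      (aP z u (σ * e0) (σ * β0) x0) u w H (OmE f n z (σ * e0) (σ * β0))).card : ℝ) ≤
      ((GoodX f i j t n A B).card : ℝ) + 3 * D := by exact_mod_cast hcount
  have hVV := Dd.VV_ge hzY hYn
  have hBA0 : (12 : ℝ) ≤ (B : ℝ) - A := by linarith
  have hmain : cc * V1 z / 4 * ((B : ℝ) - A) * V f n ≤ ((GoodX f i j t n A B).card : ℝ) + 3 * D := by
    refine le_trans ?_ (hchen.trans hcount')
    calc cc * V1 z / 4 * ((B : ℝ) - A) * V f n = cc * (((B : ℝ) - A) / 4) * (V1 z * V f n) := by ring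
      _ ≤ cc * ((Q : ℝ) - P) * VV (Z0 (OmE f n z (σ * e0) (σ * β0))) 0 Y := by
          apply mul_le_mul _ hVV (by positivity)
          · apply mul_nonneg hcc0.le
            linarith
          · exact mul_le_mul_of_nonneg_left hQP hcc0.le
  -- the error
  have herr : (3 * D : ℝ) ≤ cc * V1 z / 8 * ((B : ℝ) - A) * V f n := by
    have h1 := hn₄ n (by omega)
    have h2 : 0 < cc * V1 z / 8 * θ * cV := by positivity
    rw [div_mul_eq_mul_div, div_le_iff₀ h2] at h1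
    have h3 : (3 * D : ℝ) ≤ cc * V1 z / 8 * (θ * n) * (cV / Real.log n ^ D) := by
      rw [mul_div_assoc', le_div_iff₀ (by positivity)]
      linarith
    refine h3.trans ?_
    gcongr
  have h9 : cc * V1 z / 8 * ((B : ℝ) - A) * V f n ≤ ((GoodX f i j t n A B).card : ℝ) := by
    have h10 : cc * V1 z / 4 * ((B : ℝ) - A) * V f n = 2 * (cc * V1 z / 8 * ((B : ℝ) - A) * V f n) := by ring
    linarith
  refine le_trans ?_ h9
  have h11 : 0 ≤ ((B : ℝ) - A) * V f n := by positivity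
  have h12 : min (cc * V1 z / 8) cV ≤ cc * V1 z / 8 := min_le_left _ _
  have := mul_le_mul_of_nonneg_right h12 h11
  linarith

end Pool.Agent.X32.Fam
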