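import Pool.Agent.X32.Fam.Main
import Pool.Agent.Y843.HS.Top

/-!
Narrow progressions in dense subsets of the good sets.
-/

set_option autoImplicit false

namespace Pool.Agent.X32.Fam

open Finset Filter
open Pool.Agent.Y843.HS (Pr VV Pr_mem Pr_prime VV_split Sv)

variable {m : ℕ}

/-- the zeros of the product modulo `p` -/
noncomputable def Zf (f : Fin m → MvPolynomial (Fin 2) ℤ) (n p : ℕ) : Finset ℕ :=
  (range p).filter (fun x : ℕ => (p : ℤ) ∣ ∏ k, val (f k) n x)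

theorem omega_le {f : Fin m → MvPolynomial (Fin 2) ℤ} {n : ℕ}
    (hloc : ∀ p : ℕ, p.Prime → ∃ x : ℤ, ¬ (p : ℤ) ∣ ∏ k, val (f k) n x) {p : ℕ} (hp : p.Prime) :
    omega f n p ≤ ∑ k, (f k).totalDegree := by
  have h1 : omega f n p = ((range p).filter (fun x : ℕ => (p : ℤ) ∣ (∏ k, gp (f k) n).eval (x : ℤ))).card := by
    unfold omega
    congr 1
    apply filter_congr
    intro x _
    rw [Polynomial.eval_prod]
    simp only [eval_gp]
  rw [h1]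
  refine (card_roots_le _ hp ?_).trans ?_
  · obtain ⟨x, hx⟩ := hloc p hp
    refine ⟨x, ?_⟩
    rw [Polynomial.eval_prod]
    simp only [eval_gp]
    exact hx
  · refine (Polynomial.natDegree_prod_le _ _).trans ?_
    exact sum_le_sum fun k _ => natDegree_gp_le _ _

theorem Pr_eq (n : ℕ) : Pr 0 n = (Icc 1 n).filter Nat.Prime := by
  ext p
  rw [Pr_mem, mem_filter, mem_Icc]
  constructor
  · rintro ⟨⟨a, b⟩, c⟩
    exact ⟨⟨c.pos, b⟩, c⟩
  · rintro ⟨⟨a, b⟩, c⟩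
    exact ⟨⟨c.pos, b⟩, c⟩

/-- the sieve product up to a power of `n` -/
theorem V_Y (D t : ℕ) (ht : 1 ≤ t) : ∃ c : ℝ, 0 < c ∧ ∃ n₀ : ℕ, ∀ n : ℕ, n₀ ≤ n →
    ∀ f : Fin m → MvPolynomial (Fin 2) ℤ, (∑ k, (f k).totalDegree) ≤ D →
    (∀ p : ℕ, p.Prime → ∃ x : ℤ, ¬ (p : ℤ) ∣ ∏ k, val (f k) n x) →
    c * VV (Zf f n) 0 ⌊(n : ℝ) ^ (1 / (t : ℝ))⌋₊ ≤ V f n := by
  classical
  obtain ⟨c, hc, R₀, hR⟩ := Pool.Agent.Y79.HS.den D (t + 1)
  obtain ⟨n₁, h1⟩ := eventually_atTop.1 (pow_ge t ht (max (R₀ + 1) (2 ^ (t + 1))))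
  refine ⟨c, hc, max n₁ 1, fun n hn f hfD hloc => ?_⟩
  have hn1 : 1 ≤ n := (le_max_right _ _).trans hn
  have hn0 : (0 : ℝ) < n := by exact_mod_cast hn1
  have ht0 : (0 : ℝ) < t := by exact_mod_cast ht
  obtain ⟨w, hw⟩ : ∃ w : ℝ, w = (n : ℝ) ^ (1 / (t : ℝ)) := ⟨_, rfl⟩
  have h2 := h1 n ((le_max_left _ _).trans hn)
  rw [← hw] at h2 ⊢
  have hwR : (R₀ : ℝ) + 1 < w := lt_of_le_of_lt (le_max_left _ _) h2
  have hw2 : (2 : ℝ) ^ (t + 1) < w := lt_of_le_of_lt (le_max_right _ _) h2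
  have hw1 : (1 : ℝ) ≤ w := by
    have : (1 : ℝ) ≤ 2 ^ (t + 1) := one_le_pow₀ (by norm_num)
    linarith
  obtain ⟨Y, hY⟩ : ∃ Y : ℕ, Y = ⌊w⌋₊ := ⟨_, rfl⟩
  rw [← hY]
  have hYw : (Y : ℝ) ≤ w := by rw [hY]; exact Nat.floor_le (by linarith)
  have hwY : w < Y + 1 := by rw [hY]; exact Nat.lt_floor_add_one _
  have hYR : R₀ ≤ Y := by
    have : (R₀ : ℝ) ≤ Y := by linarith
    exact_mod_cast this
  have hwt : w ^ t = n := by
    rw [hw, ← Real.rpow_natCast, ← Real.rpow_mul hn0.le, one_div, inv_mul_cancel₀ ht0.ne', Real.rpow_one]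
  have hYn : Y ≤ n := by
    have h3 : w ≤ w ^ t := by
      calc w = w ^ 1 := (pow_one w).symm
        _ ≤ w ^ t := pow_le_pow_right₀ hw1 ht
    have : (Y : ℝ) ≤ n := by rw [← hwt]; linarith
    exact_mod_cast this
  have hnY : n ≤ Y ^ (t + 1) := by
    have h3 : w / 2 ≤ Y := by
      have : (2 : ℝ) ≤ w := by
        have : (2 : ℝ) ≤ 2 ^ (t + 1) := by
          calc (2 : ℝ) = 2 ^ 1 := (pow_one 2).symm
            _ ≤ 2 ^ (t + 1) := pow_le_pow_right₀ (by norm_num) (by omega)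
        linarith
      linarith
    have h4 : (w / 2) ^ (t + 1) ≤ (Y : ℝ) ^ (t + 1) := pow_le_pow_left₀ (by positivity) h3 _
    have h5 : (n : ℝ) ≤ (w / 2) ^ (t + 1) := by
      rw [div_pow, pow_succ w, hwt, le_div_iff₀ (by positivity)]
      exact mul_le_mul_of_nonneg_left hw2.le hn0.le
    exact_mod_cast h5.trans h4
  have hcard : ∀ p, (Zf f n p).card = omega f n p := fun p => rfl
  have hVV : V f n = VV (Zf f n) 0 n := by
    unfold V VV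
    rw [Pr_eq]
    rfl
  rw [hVV, ← VV_split (Zf f n) (Nat.zero_le Y) hYn]
  have h6 := hR Y n hYR hnY (Zf f n) (by
    intro p hp
    refine ⟨?_, ?_⟩
    · rw [hcard]
      exact (omega_le hloc (Pr_prime hp)).trans hfD
    · intro c hc
      exact mem_range.1 (mem_filter.1 hc).1)
  have h7 : 0 ≤ VV (Zf f n) 0 Y := by
    unfold VV
    refine prod_nonneg fun p hp => ?_
    rw [hcard]
    exact (fac_bounds hloc (Pr_prime hp)).1.le
  rw [mul_comm]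
  exact mul_le_mul_of_nonneg_left h6 h7

/-- narrow progressions in dense subsets of a set of arguments whose values have no small prime factor -/
theorem prog_of (D t : ℕ) (ht : 1 ≤ t) (κ : ℝ) (hκ : 0 < κ) (k : ℕ) (θ δ : ℝ) (hθ : 0 < θ) (hδ : 0 < δ) :
    ∃ C n₀ : ℕ, ∀ n : ℕ, n₀ ≤ n → ∀ f : Fin m → MvPolynomial (Fin 2) ℤ, (∑ k, (f k).totalDegree) ≤ D →
      (∀ p : ℕ, p.Prime → ∃ x : ℤ, ¬ (p : ℤ) ∣ ∏ k, val (f k) n x) →
      ∀ A B : ℕ, B < n → θ * n ≤ (B : ℝ) - A → ∀ G : Finset ℕ, G ⊆ Ioc A B →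
      (∀ x ∈ G, ∀ k, ∀ q : ℕ, q.Prime → (q : ℤ) ∣ val (f k) n x → (n : ℝ) ^ (1 / (t : ℝ)) < q) →
      κ * ((B : ℝ) - A) * V f n ≤ (G.card : ℝ) →
      ∀ S : Finset ℕ, S ⊆ G → δ * (G.card : ℝ) ≤ S.card →
        ∃ a h : ℕ, 1 ≤ h ∧ (h : ℝ) ≤ Real.log n ^ C ∧ ∀ j < k, a + j * h ∈ S := by
  classical
  obtain ⟨c, hc, n₁, hV⟩ := V_Y (m := m) D t ht
  have ht0 : (0 : ℝ) < t := by exact_mod_cast ht
  obtain ⟨C, X₀, hfin⟩ := Pool.Agent.Y843.HS.fin k D (1 / (t : ℝ)) (δ * κ * θ * c) (by positivity)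
    (by positivity)
  refine ⟨C, max n₁ X₀, ?_⟩
  intro n hn f hfD hloc A B hBn hAB G hG hGq hGc S hS hSc
  have h1 := hV n ((le_max_left _ _).trans hn) f hfD hloc
  have hcard : ∀ p, (Zf f n p).card = omega f n p := fun p => rfl
  apply hfin n 0 ((le_max_right _ _).trans hn) (Zf f n)
  · intro p hp _
    refine ⟨?_, ?_, ?_⟩
    · rw [hcard]
      exact (omega_le hloc hp).trans hfD
    · rw [hcard]
      exact omega_lt hloc hp
    · intro x hx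
      exact mem_range.1 (mem_filter.1 hx).1
  · intro x hx
    have h2 := hG (hS hx)
    rw [mem_Ioc] at h2 ⊢
    omega
  · intro x hx p hp hpn hcon
    have h2 := (mem_filter.1 hcon).2
    have h3 : (p : ℤ) ∣ ∏ k, val (f k) n x := by
      have h4 : (((x % p : ℕ) : ℤ)) ≡ x [ZMOD p] := by
        push_cast
        exact Int.mod_modEq _ _
      rwa [dvd_val_iff h4] at h2
    obtain ⟨k', _, hk'⟩ := (Nat.prime_iff_prime_int.1 hp).exists_mem_finset_dvd h3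
    have := hGq x (hS hx) k' p hp hk'
    linarith
  · have h7 : 0 ≤ VV (Zf f n) 0 ⌊(n : ℝ) ^ (1 / (t : ℝ))⌋₊ := by
      unfold VV
      refine prod_nonneg fun p hp => ?_
      rw [hcard]
      exact (fac_bounds hloc (Pr_prime hp)).1.le
    have hV0 := V_nonneg hloc
    have hn0 : (0 : ℝ) ≤ n := Nat.cast_nonneg n
    calc δ * κ * θ * c * n * VV (Zf f n) 0 ⌊(n : ℝ) ^ (1 / (t : ℝ))⌋₊ =
          δ * (κ * (θ * n) * (c * VV (Zf f n) 0 ⌊(n : ℝ) ^ (1 / (t : ℝ))⌋₊)) := by ring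
      _ ≤ δ * (κ * (θ * n) * V f n) := by gcongr
      _ ≤ δ * (κ * ((B : ℝ) - A) * V f n) := by gcongr
      _ ≤ δ * G.card := by gcongr
      _ ≤ _ := hSc

theorem prog (f : Fin m → MvPolynomial (Fin 2) ℤ) (hf : Admissible f) (i j : Fin m)
    (a b c a' b' c' : ℤ) (hi : f i = lin a b c) (hj : f j = lin a' b' c') (hne : f j ≠ f i) (hne' : f j ≠ - f i) :
    ∃ t : ℕ, 1 ≤ t ∧ ∀ k : ℕ, ∀ θ δ : ℝ, 0 < θ → 0 < δ → ∃ C n₀ : ℕ, ∀ n : ℕ, n₀ ≤ n →
      ∀ A B : ℕ, B < n → θ * n ≤ (B : ℝ) - A →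
        (∃ x, x ∈ GoodX f i j t n A B) ∧
        ∀ S : Finset ℕ, S ⊆ GoodX f i j t n A B → δ * ((GoodX f i j t n A B).card : ℝ) ≤ S.card →
        ∃ a h : ℕ, 1 ≤ h ∧ (h : ℝ) ≤ Real.log n ^ C ∧ ∀ j < k, a + j * h ∈ S := by
  classical
  obtain ⟨t, ht, κ, hκ, H⟩ := main f hf i j a b c a' b' c' hi hj hne hne'
  obtain ⟨_, N₀, hadm⟩ := hf
  refine ⟨t, ht, fun k θ δ hθ hδ => ?_⟩
  obtain ⟨n₁, h1⟩ := H θ hθ
  obtain ⟨C, n₂, h2⟩ := prog_of (m := m) (∑ k, (f k).totalDegree) t ht κ hκ k θ δ hθ hδ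
  refine ⟨C, max (max n₁ n₂) (max N₀ 3), ?_⟩
  intro n hn A B hBn hAB
  have hn3 : 3 ≤ n := (le_max_right _ _).trans ((le_max_right _ _).trans hn)
  have hloc : ∀ p : ℕ, p.Prime → ∃ x : ℤ, ¬ (p : ℤ) ∣ ∏ k, val (f k) n x := by
    intro p hp
    obtain ⟨x, hx⟩ := (hadm n ((le_max_left _ _).trans ((le_max_right _ _).trans hn))).2 p hp
    refine ⟨x, ?_⟩
    simp only [eval_gp] at hx
    exact hx
  obtain ⟨h3, h4⟩ := h1 n ((le_max_left _ _).trans ((le_max_left _ _).trans hn))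
  have h5 := h4 A B hBn hAB
  have hn0 : (0 : ℝ) < n := by exact_mod_cast (by omega : 0 < n)
  have hlog : 0 < Real.log n := Real.log_pos (by exact_mod_cast (by omega : 1 < n))
  have hVp : 0 < V f n := lt_of_lt_of_le (by positivity) h3
  constructor
  · have h6 : (0 : ℝ) < ((GoodX f i j t n A B).card : ℝ) := by
      refine lt_of_lt_of_le ?_ h5
      have : 0 < (B : ℝ) - A := lt_of_lt_of_le (by positivity) hAB
      positivity
    have h7 : 0 < (GoodX f i j t n A B).card := by exact_mod_cast h6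
    exact card_pos.1 h7
  · intro S hS hSc
    refine h2 n ((le_max_right _ _).trans ((le_max_left _ _).trans hn)) f le_rfl hloc A B hBn hAB _ ?_ ?_ h5 S hS hSc
    · exact filter_subset _ _
    · intro x hx k q hq hd
      unfold GoodX at hx
      rw [mem_filter] at hx
      exact (hx.2.2.2 k).2.2 q hq hd

end Pool.Agent.X32.Fam
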